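import Pool.Agent.U404.MU.Typ

/-!
# Almost all sets of `k` multipliers: `5 k / 18` simultaneous primes `r q + 1`, in all patterns

The question is about simultaneous primes `r_1 q + 1, …, r_ℓ q + 1`. Maynard and Tao have about `log k` such primes
for EVERY `k` multipliers. Here it is shown that ALMOST all sets of `k` multipliers, taken from an arbitrary large
finite set of positive integers, contain `5 k / 18` multipliers `J` for which not only simultaneous primes
`r q + 1`, `r ∈ J`, occur, but all `2 ^ |J|` patterns of prime and composite values, along progressions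
`q, q + d, …, q + (l - 1) d` of every length `l`, and with the frequency `N / (log N) ^ C`.

Proof. If a positive proportion of the `k`-element subsets of a large set had no such part, then (Erdős) a product
`A_1 × ⋯ × A_k` of `k` large sets `A_1 < ⋯ < A_k` would consist of such sets. By the coloured Maynard-Tao theorem
with all patterns (`Pool.Agent.Y827.HN.patR`; there is no local condition for the forms `r q + 1`) at every large
height `N` all patterns occur on one element of each of `5 k / 18` of the sets `A_g`. There are finitely many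
possibilities, so one of them is met at arbitrarily large heights for every length of the progressions.
-/

set_option autoImplicit false

namespace Pool.Agent.Results.MP_d018b2_nt.AlmostAllMultipliers

open Filter

/-- the number of the `n`, `1 ≤ n ≤ N`, such that for each `q = n, n + d, …, n + (l - 1) d` exactly those of the
numbers `r q + 1`, `r ∈ J`, with `r ∈ A` are prime -/
noncomputable def count (J A : Finset ℕ) (l d N : ℕ) : ℕ :=
  {n : ℕ | 1 ≤ n ∧ n ≤ N ∧ ∀ i < l, ∀ r ∈ J, (r * (n + i * d) + 1).Prime ↔ r ∈ A}.ncard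

/-- all patterns of prime and composite numbers `r q + 1`, `r ∈ J`, occur along progressions of every length -/
def AllPatterns (J : Finset ℕ) : Prop :=
  ∀ l : ℕ, ∃ C : ℕ, ∃ᶠ N : ℕ in atTop, ∀ A ⊆ J, ∃ d : ℕ, 1 ≤ d ∧ (d : ℝ) ≤ (Real.log N) ^ C ∧
    (N : ℝ) / (Real.log N) ^ C ≤ (count J A l d N : ℝ)

/-- **Almost all sets of `k` multipliers.** For every `k ≥ 1` and `ε > 0` there is `n₀` such that for EVERY set `F`
of at least `n₀` positive integers all but at most `ε * (|F| choose k)` of the subsets `I` of `F` with `k` elements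
contain a set `J` of at least `5 k / 18` elements with `AllPatterns J`. -/
theorem result (k : ℕ) (hk : 1 ≤ k) (ε : ℝ) (hε : 0 < ε) : ∃ n₀ : ℕ, ∀ F : Finset ℕ, (∀ r ∈ F, 1 ≤ r) →
    n₀ ≤ F.card → ({I : Finset ℕ | I ⊆ F ∧ I.card = k ∧ ¬ ∃ J ⊆ I, 5 * k ≤ 18 * J.card ∧ AllPatterns J}.ncard : ℝ) ≤
      ε * (F.card.choose k : ℝ) := by
  classical
  obtain ⟨φ, hφ⟩ : ∃ φ : ℕ → ℤ × ℤ, φ = fun r : ℕ => ((r : ℤ), (1 : ℤ)) := ⟨_, rfl⟩
  have hφi : ∀ r r' : ℕ, φ r = φ r' → r = r' := by
    intro r r' h
    rw [hφ] at h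
    have h1 := (Prod.mk.inj h).1
    exact_mod_cast h1
  obtain ⟨n₀, hn₀⟩ := Pool.Agent.U404.MU.typical hk hε
  refine ⟨n₀, fun F hF hn => le_trans ?_ (hn₀ φ F ⟨fun r hr => ?_, fun r _ r' _ h => hφi r r' h, fun p hp => ?_⟩ hn)⟩
  · rw [Nat.cast_le, ← Set.ncard_coe_finset]
    refine Set.ncard_le_ncard ?_ (Finset.finite_toSet _)
    rintro I ⟨hI1, hI2, hI3⟩
    rw [Finset.mem_coe, Finset.mem_filter, Finset.mem_powersetCard]
    refine ⟨⟨hI1, hI2⟩, fun J hJ hJk hG => hI3 ⟨J, hJ, hJk, fun l => ?_⟩⟩
    obtain ⟨C, hC⟩ := Pool.Agent.U404.MU.good_count (fun r _ r' _ h => hφi r r' h) hG l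
    refine ⟨C, hC.mono fun N hN A hA => ?_⟩
    obtain ⟨d, h1, h2, h3⟩ := hN A hA
    refine ⟨d, h1, h2, h3.trans (le_of_eq ?_)⟩
    unfold count
    congr 2
    ext n
    have e : ∀ i r : ℕ, ((φ r).1 * ((n + i * d : ℕ) : ℤ) + (φ r).2).toNat = r * (n + i * d) + 1 := by
      intro i r
      have h4 : (φ r).1 * ((n + i * d : ℕ) : ℤ) + (φ r).2 = ((r * (n + i * d) + 1 : ℕ) : ℤ) := by
        rw [hφ]
        push_cast
        ring
      rw [h4, Int.toNat_natCast]
    simp only [Set.mem_setOf_eq, e]
  · rw [hφ]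
    refine ⟨?_, isCoprime_one_right⟩
    have h1 := hF r hr
    show (0 : ℤ) < (r : ℤ)
    exact_mod_cast h1
  · refine ⟨0, fun r _ hd => ?_⟩
    have hd1 : (p : ℤ) ∣ 1 := by simpa [hφ] using hd
    exact (Nat.prime_iff_prime_int.1 hp).not_isUnit (isUnit_of_dvd_one hd1)

end Pool.Agent.Results.MP_d018b2_nt.AlmostAllMultipliers
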