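import Pool.Agent.U28.SF.SF8

/-!
# Prime tuplets `q r_1 + 1, ..., q r_l + 1`, and their progressions, in all short intervals

`w T p` and `S T` are the `w(p)` and the singular product of the problem for the set `T` of the `r_j`. Inside every set
`A` of integers `1 ≤ r ≤ (log N) ^ C` with `∑ r / φ(r) ≥ λ log N`, `λ > 0` arbitrarily small, the proportion
`4 ^ (1 - l) - ε` of the `l`-element subsets `T` (measured by the singular product) has the following property. For
every set `U` of a positive proportion of the `q ≤ N` for which all `q r + 1`, `r ∈ T`, are prime, and for a positive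
proportion of the integers `n ≤ N`, ALL the intervals `(n, n + H]`, `H ≤ N`, in which at least one `q` is expected
contain the right order of first terms `q ∈ U` of `m`-term progressions of elements of `U` with differences at most a
power of `log N`.
-/

set_option autoImplicit false

open Finset

namespace Pool.Agent.Results.MP_d018b2_nt.DilatesInAllShortIntervals

/-- the number of residue classes `q mod p` with `p ∣ ∏ (q r + 1)` -/
def w (T : Finset ℕ) (p : ℕ) : ℕ := ((range p).filter (fun q => p ∣ ∏ r ∈ T, (q * r + 1))).card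

/-- the singular product of the forms `q r + 1`, `r ∈ T` -/
noncomputable def S (T : Finset ℕ) : ℝ :=
  ∏' p : Nat.Primes, (1 - (w T p : ℝ) / ((p : ℕ) : ℝ)) / (1 - 1 / ((p : ℕ) : ℝ)) ^ T.card

/-- the integers `1 ≤ q ≤ N` with all `q r + 1`, `r ∈ T`, prime -/
def Q (N : ℕ) (T : Finset ℕ) : Finset ℕ := (Icc 1 N).filter (fun q => ∀ r ∈ T, (q * r + 1).Prime)

/-- `q` is the first of `m` terms of an arithmetic progression in `U` with difference between `1` and `D` -/
def FirstTerm (m : ℕ) (D : ℝ) (U : Finset ℕ) (q : ℕ) : Prop :=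
  ∃ d : ℕ, 1 ≤ d ∧ (d : ℝ) ≤ D ∧ ∀ j < m, q + j * d ∈ U

open Classical in
/-- At least `κ N` of the integers `0 ≤ n ≤ N` are such that for ALL natural numbers `H ≤ N` with `μ H ≥ 1` the
interval `(n, n + H]` contains at least `κ μ H` integers with the property `P`. -/
def Everywhere (κ μ : ℝ) (N : ℕ) (P : ℕ → Prop) : Prop :=
  κ * N ≤ (((range (N + 1)).filter (fun n => ∀ H : ℕ, 1 ≤ μ * H → H ≤ N →
    κ * (μ * H) ≤ (((Ioc n (n + H)).filter P).card : ℝ))).card : ℝ)

/-- `T` is good, with `l = |T|` and `μ = S(T) / (log N) ^ l`: `S(T) > 0`, `Q N T` has at least `κ μ N` elements, and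
every subset `U` of `Q N T` of relative density at least `ρ` satisfies `Everywhere κ μ N (FirstTerm m D U)`. -/
def Good (κ ρ : ℝ) (l m : ℕ) (D : ℝ) (N : ℕ) (T : Finset ℕ) : Prop :=
  0 < S T ∧ κ * (S T * (N / Real.log N ^ l)) ≤ (Q N T).card ∧ ∀ U ⊆ Q N T, ρ * (Q N T).card ≤ U.card →
    Everywhere κ (S T / Real.log N ^ l) N (FirstTerm m D U)

open Classical in
/-- The singular products converge. For all `k ≥ 1` and `m`, and all `ε, lam, ρ > 0` there are `κ > 0` and `B` such that
for every `C` and all large `N`, for every finite set `A` of integers `1 ≤ r ≤ (log N) ^ C` with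
`∑ r / φ(r) ≥ lam log N`: the good `(k + 1)`-element subsets `T` of `A` carry at least the proportion `4 ^ (-k) - ε` of
the sum of the `S T` over all `(k + 1)`-element subsets. -/
theorem result :
    (∀ T : Finset ℕ, (∀ r ∈ T, 1 ≤ r) → HasProd (fun p : Nat.Primes =>
      (1 - (w T p : ℝ) / ((p : ℕ) : ℝ)) / (1 - 1 / ((p : ℕ) : ℝ)) ^ T.card) (S T)) ∧
    ∀ k m : ℕ, 1 ≤ k → ∀ ε lam ρ : ℝ, 0 < ε → 0 < lam → 0 < ρ → ∃ κ : ℝ, 0 < κ ∧ ∃ B : ℕ, ∀ C : ℝ,
      ∃ N₀ : ℕ, ∀ N : ℕ, N₀ ≤ N → ∀ A : Finset ℕ, (∀ r ∈ A, 1 ≤ r ∧ (r : ℝ) ≤ Real.log N ^ C) →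
        lam * Real.log N ≤ ∑ r ∈ A, (r : ℝ) / Nat.totient r →
          ((1 / 4 : ℝ) ^ k - ε) * ∑ T ∈ A.powersetCard (k + 1), S T ≤
            ∑ T ∈ (A.powersetCard (k + 1)).filter (Good κ ρ (k + 1) m (Real.log N ^ B) N), S T := by
  refine ⟨fun _ hT => Pool.Agent.W218.MU.SD_hasProd hT, fun k m hk ε lam ρ hε hlam hρ => ?_⟩
  obtain ⟨κ, hκ, B, h⟩ := Pool.Agent.U28.SF.dil_all k m hk ε lam ρ hε hlam hρ
  refine ⟨κ, hκ, B, fun C => ?_⟩
  obtain ⟨N₀, hN₀⟩ := Filter.eventually_atTop.1 (h C)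
  refine ⟨N₀, fun N hN A hA hsum => ?_⟩
  exact hN₀ N hN A hA hsum

end Pool.Agent.Results.MP_d018b2_nt.DilatesInAllShortIntervals
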