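import Pool.Agent.U163.SU.Uni

/-!
# Almost primes `q r_1 + 1, …, q r_l + 1` for all primes `q` in strings of consecutive primes, uniformly in the
`r_j ≤ x ^ A`

The question is about the number of the `q`, `x ≤ q < 2 x`, for which all `q r_j + 1` are prime, uniformly in distinct
`r_j ≤ b log x`. Here the `q` are primes, in strings of consecutive primes, the `q r_j + 1` are almost primes (a
bounded number of prime factors, all larger than a power of `x`), and the `r_j` are arbitrary up to any power of
`x`, such that no prime divides `q ∏ (q r_j + 1)` for all `q` (so all the `r_j` are even): uniformly in the `r_j` a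
positive proportion of the patterns `H` of `m` elements of any given large finite set are patterns of consecutive
primes `q + h`, `h ∈ H`, of this kind, each for at least `x / (log x) ^ B` of the `q` in `(x, 2 x]`.

The file `UniformPoisson` of this problem (helper832) has the expected number of the `q` for which all the
`q r_j + 1` are free of small prime factors, uniformly in the `r_j`, without conditions on `q`; `BoundedFactors` has
primes `q f_j r_j + 1` with bounded factors `f_j`.

Proof. The theorem `R498.MP.stringsUR` of the starting library (Maynard-Tao theorem for strings of consecutive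
primes with almost prime polynomial values, uniformly in the polynomial; it is used by starting hand-ins only for
Goldbach's problem) is applied to `∏ (r_j X + 1)`; the proportion of the patterns follows by double counting
(`Helper32K9.Str`).
-/

set_option autoImplicit false

namespace Pool.Agent.Results.MP_d018b2_nt.PrimeArguments

open Finset Filter Polynomial

/-- `n` has at most `R` prime factors, counted with multiplicity, all of them at least `w`. -/
def AlmostPrime (R : ℕ) (w : ℝ) (n : ℕ) : Prop :=
  n.primeFactorsList.length ≤ R ∧ ∀ p : ℕ, p.Prime → p ∣ n → w ≤ p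

/-- The integers `q` with `x < q`, `q + max H ≤ 2 x`, such that the primes in the interval `[q, q + max H]` are
exactly the numbers `q + h`, `h ∈ H`, all of them are `≡ a` modulo `k`, and for all of them and all `j` the number
`(q + h) r_j + 1` has at most `R` prime factors, all of them at least `x ^ δ`. -/
def places {l : ℕ} (r : Fin l → ℕ) (x k a R : ℕ) (δ : ℝ) (H : Finset ℕ) : Set ℕ :=
  {q | x < q ∧ q + H.sup id ≤ 2 * x ∧ (∀ y ≤ H.sup id, (q + y).Prime ↔ y ∈ H) ∧
    ∀ h ∈ H, q + h ≡ a [MOD k] ∧ ∀ j, AlmostPrime R ((x : ℝ) ^ δ) ((q + h) * r j + 1)}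

/-- the polynomial -/
noncomputable def fam (r : ℕ) : ℤ[X] := C (r : ℤ) * X + C 1

theorem fam_eval (r : ℕ) (x : ℤ) : (fam r).eval x = x * r + 1 := by
  unfold fam
  simp
  ring

theorem fam_deg (r : ℕ) : (fam r).natDegree ≤ 1 := by
  unfold fam
  refine (natDegree_add_le _ _).trans (max_le ((natDegree_C_mul_le _ _).trans natDegree_X_le) ?_)
  rw [natDegree_C]
  omega

/-- **Strings of consecutive primes `q` with almost prime `q r_j + 1`, uniformly in the `r_j`.** Let `l`, `m ≥ 1` be
given and let `k` be squarefree. There are `K`, `B` and `δ > 0` such that for every `A` there is an `R` such that for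
every finite set `T` of at least `K` nonnegative integers and all large `x` the following holds for ALL
`1 ≤ r_1, …, r_l ≤ x ^ A` such that for every prime `p` there is a `q` for which `p` divides none of
`q`, `q r_1 + 1, …, q r_l + 1`, and all `a` for which `a` and all the `a r_j + 1` are prime to `k` (for instance
`k = 1`): for at least the proportion `1 / K` of the subsets `H` of `T` with `m` elements there are at least
`x / (log x) ^ B` integers `q`, `x < q`, `q + max H ≤ 2 x`, such that the primes in `[q, q + max H]` are exactly the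
numbers `q + h`, `h ∈ H`, all of them are `≡ a` modulo `k`, and all the `(q + h) r_j + 1` have at most `R` prime
factors, all of them at least `x ^ δ`. -/
theorem result (l m : ℕ) (hm : 1 ≤ m) (k : ℕ) (hk : Squarefree k) :
    ∃ (K B : ℕ) (δ : ℝ), 0 < K ∧ 0 < δ ∧ ∀ A : ℕ, ∃ R : ℕ, ∀ T : Finset ℕ, K ≤ T.card →
      ∀ᶠ x : ℕ in atTop, ∀ r : Fin l → ℕ, (∀ j, 1 ≤ r j ∧ r j ≤ x ^ A) →
      (∀ p : ℕ, p.Prime → ∃ q : ℕ, ¬ p ∣ q ∧ ∀ j, ¬ p ∣ q * r j + 1) →
      ∀ a : ℕ, a.Coprime k → (∀ j, (a * r j + 1).Coprime k) →
      T.card.choose m ≤ K * {H : Finset ℕ | H ⊆ T ∧ H.card = m ∧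
        (x : ℝ) / Real.log x ^ B ≤ (places r x k a R δ H).ncard}.ncard := by
  classical
  obtain ⟨K, B, δ, hK, hδ, hmain⟩ := Pool.Agent.U163.SU.uni_prod l 1 k hk m hm
  refine ⟨K, B, δ, hK, hδ, fun A => ?_⟩
  obtain ⟨R, hR⟩ := hmain (A + 3)
  refine ⟨R, fun T hT => ?_⟩
  filter_upwards [hR T hT, eventually_ge_atTop 3] with x hx hx3
  intro r hr hadm a ha har
  have heven : ∀ j, 2 ≤ r j := by
    intro j
    by_contra hcon
    push Not at hcon
    have h1 : r j = 1 := by have := (hr j).1; omega
    obtain ⟨q, hq1, hq2⟩ := hadm 2 Nat.prime_two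
    have := hq2 j
    rw [h1] at this
    omega
  refine (hx (fun j => fam (r j)) (fun j => fam_deg _)
    (fun p hp => by
      obtain ⟨q, hq1, hq2⟩ := hadm p hp
      refine ⟨q, fun h => hq1 (Int.natCast_dvd_natCast.1 h), fun j h => hq2 j ?_⟩
      rw [fam_eval] at h
      exact_mod_cast h)
    (fun j y hy => by
      rw [fam_eval]
      refine Pool.Agent.U163.SU.quad_le hx3 (c := (r j : ℤ)) (d := 1) (by positivity) (by norm_num)
        (by exact_mod_cast (hr j).2) (one_le_pow₀ (by exact_mod_cast (by omega : 1 ≤ x))) ?_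
      calc |y * (r j : ℤ) + 1| ≤ |y * (r j : ℤ)| + |(1 : ℤ)| := abs_add_le _ _
        _ = |y| * (r j : ℤ) + 1 := by rw [abs_mul, Nat.abs_cast, abs_one]
        _ ≤ (r j : ℤ) * (2 * x) + 1 := by
            have : |y| * (r j : ℤ) ≤ (2 * x) * (r j : ℤ) := by gcongr
            linarith)
    (fun j y _ _ => by
      rw [fam_eval]
      intro h0
      have h1 : (r j : ℤ) ∣ 1 := ⟨-y, by linarith⟩
      have h2 : r j ∣ 1 := by exact_mod_cast h1
      have h3 := Nat.dvd_one.1 h2
      have := heven j
      omega)
    a (fun p hp hpk => by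
      refine ⟨fun h => ?_, fun j h => ?_⟩
      · have h1 := Nat.dvd_gcd (Int.natCast_dvd_natCast.1 h) hpk
        rw [ha] at h1
        exact hp.one_lt.ne' (Nat.dvd_one.1 h1)
      · rw [fam_eval] at h
        have h0 : p ∣ a * r j + 1 := by exact_mod_cast h
        have h1 := Nat.dvd_gcd h0 hpk
        rw [har j] at h1
        exact hp.one_lt.ne' (Nat.dvd_one.1 h1))).trans (Nat.mul_le_mul_left _ ?_)
  have heq : ∀ H, Pool.Agent.U163.SU.placesP (fun j => fam (r j)) x k a R δ H ⊆
      places r x k a R δ H := by
    rintro H q ⟨h1, h2, h3, h4⟩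
    refine ⟨h1, h2, h3, fun h hh => ⟨(h4 h hh).1, fun j => ?_⟩⟩
    have h5 := ((h4 h hh).2 j).2
    rw [fam_eval] at h5
    have h6 : (((q + h : ℕ) : ℤ) * (r j : ℤ) + 1).natAbs = (q + h) * r j + 1 := by
      have : (((q + h : ℕ) : ℤ) * (r j : ℤ) + 1) = (((q + h) * r j + 1 : ℕ) : ℤ) := by push_cast; ring
      rw [this, Int.natAbs_natCast]
    rw [h6] at h5
    exact h5
  have hfin : ∀ P : Finset ℕ → Prop, {H : Finset ℕ | H ⊆ T ∧ H.card = m ∧ P H}.Finite := by
    intro P
    apply (T.powersetCard m).finite_toSet.subset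
    rintro H ⟨h1, h2, -⟩
    exact Finset.mem_coe.2 (Finset.mem_powersetCard.2 ⟨h1, h2⟩)
  apply Set.ncard_le_ncard _ (hfin _)
  rintro H ⟨h1, h2, h3⟩
  refine ⟨h1, h2, h3.trans (Nat.cast_le.2 (Set.ncard_le_ncard (heq H) ?_))⟩
  refine (Set.finite_Iic (2 * x)).subset fun y hy => ?_
  have h1 : y + H.sup id ≤ 2 * x := hy.2.1
  rw [Set.mem_Iic]
  omega

end Pool.Agent.Results.MP_d018b2_nt.PrimeArguments
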