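import Pool.Agent.U832.RH.GeE

/-!
# Almost prime tuplets `q r_j + 1`, uniformly in `r_j ≤ x ^ A` and in all short intervals, in a Poisson environment

Let `ℓ ≥ 2`. Uniformly over distinct positive integers `r_1, …, r_ℓ ≤ x ^ A` (in the question: `≤ b log x`) with
`w(p) < p` for all primes `p`, consider the `q` for which none of the `q r_j + 1` has a prime factor `≤ x ^ (1 / R)`.
In every interval of length `≥ x ^ θ` (in the question: `[x, 2 x)`) their number is as expected, and they form a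
Poisson process: the numbers of such `q` in disjoint windows, seen from an arbitrary integer, from an arbitrary such
`q`, or from an arbitrary `q` for which the numbers `q r_j + 1` have at most `M` prime factors each, all `> x ^ v`, are
independent Poisson variables; here `M` and `v` do not depend on the windows.
-/

set_option autoImplicit false

namespace Pool.Agent.Results.MP_d018b2_nt.UniformPoisson

open Finset Filter Pool.Agent.U832.RG Pool.Agent.U832.RH

variable {l : ℕ}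

open Classical in
/-- The number `w(p)` of the residue classes `q` modulo `p` with `∏ (q r_j + 1) ≡ 0`. -/
noncomputable def w (r : Fin l → ℕ) (p : ℕ) : ℕ := ((range p).filter (fun q => p ∣ ∏ j, (q * r j + 1))).card

/-- The `q` for which no prime `p ≤ y` divides one of the numbers `q r_j + 1`. -/
def Rough (r : Fin l → ℕ) (y : ℕ) : Set ℕ := {q | ∀ p : ℕ, p.Prime → p ≤ y → ∀ j, ¬ p ∣ q * r j + 1}

/-- The `q` for which the numbers `q r_j + 1` have at most `M` prime factors each, counted with multiplicity, all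
`> z`. -/
def AlmostRough (r : Fin l → ℕ) (M z : ℕ) : Set ℕ :=
  {q | q ∈ Rough r z ∧ ∀ j, (q * r j + 1).primeFactorsList.length ≤ M}

/-- The product of `1 - w(p) / p` over the primes `p ≤ y`. -/
noncomputable def V (r : Fin l → ℕ) (y : ℕ) : ℝ := ∏ p ∈ (Icc 1 y).filter Nat.Prime, (1 - (w r p : ℝ) / p)

section aux

open Pool.Agent.TH464.PO Pool.Agent.H373R2.T7 Pool.Agent.W123.RP
open Pool.Agent.W123.RU.Poly (Q)

/-- the system -/
def sa (r : Fin l → ℕ) : Fin l → ℤ := fun j => r j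

/-- the system -/
def sb : Fin l → ℤ := fun _ => 1

lemma sQ (r : Fin l → ℕ) (p m : ℕ) : Q (ls (sa r) sb) p m ↔ ∃ j, p ∣ m * r j + 1 := by
  rw [ls_Q]
  apply exists_congr
  intro j
  unfold sa sb
  rw [show ((r j : ℤ) * m + 1) = ((m * r j + 1 : ℕ) : ℤ) by push_cast; ring]
  exact Int.natCast_dvd_natCast

lemma pz_eq (y : ℕ) : pz y = (Icc 1 y).filter Nat.Prime := by
  ext p
  rw [mem_pz, mem_filter, mem_Icc]
  constructor
  · exact fun h => ⟨⟨h.2.one_lt.le, h.1⟩, h.2⟩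
  · exact fun h => ⟨h.1.2, h.2⟩

lemma rough_iff (r : Fin l → ℕ) (y m : ℕ) : m ∈ Rough r y ↔ Sf (Q (ls (sa r) sb)) y m := by
  constructor
  · intro h p hp
    rw [sQ]
    push Not
    exact h p (mem_pz.1 hp).2 (mem_pz.1 hp).1
  · intro h p hp hpy
    have h1 := h p (mem_pz.2 ⟨hpy, hp⟩)
    rw [sQ] at h1
    push Not at h1
    exact h1

lemma w_eq (r : Fin l → ℕ) (p : ℕ) (hp : p.Prime) : nuB (Q (ls (sa r) sb)) p = w r p := by
  classical
  unfold w nuB
  congr 1
  ext m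
  rw [mem_filter, mem_filter, sQ, hp.prime.dvd_finsetProd_iff]
  simp

lemma V_eq (r : Fin l → ℕ) (y : ℕ) : Vq (Q (ls (sa r) sb)) y = V r y := by
  unfold Vq V
  rw [pz_eq]
  apply Finset.prod_congr rfl
  intro p hp
  rw [w_eq r p (mem_filter.1 hp).2]

lemma ls_ok (r : Fin l → ℕ) (hr : Function.Injective r) (h1 : ∀ j, 1 ≤ r j)
    (hw : ∀ p : ℕ, p.Prime → w r p < p) : LS (sa r) sb where
  pos j := by
    unfold sa
    have := h1 j
    omega
  inj i j h := by
    unfold sa at h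
    exact hr (by exact_mod_cast h)
  cop j := isCoprime_one_right
  adm p hp := by
    obtain ⟨m, _, hm⟩ := Pool.Agent.Y879.GL.nu_exists (Q (ls (sa r) sb)) p (by rw [w_eq r p hp]; exact hw p hp)
    refine ⟨m, fun i hi => hm ?_⟩
    rw [ls_Q]
    exact ⟨i, hi⟩

lemma almost_iff (r : Fin l → ℕ) (x z q : ℕ) (v A : ℝ) (hA : 0 < A) (hx : 2 ≤ x) (hv : 0 < v)
    (hz : z = ⌊(x : ℝ) ^ v⌋₊) (hr : ∀ j, (r j : ℝ) ≤ (x : ℝ) ^ A) (hq : q ≤ x) :
    q ∈ AlmostRough r ⌊(A + 2) / v⌋₊ z ↔ q ∈ Rough r z := by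
  refine ⟨fun h => h.1, fun h => ⟨h, fun j => ?_⟩⟩
  have hxr : (2 : ℝ) ≤ x := by exact_mod_cast hx
  have hx0 : (0 : ℝ) < x := by linarith
  apply few_factors x v (A + 2) hx hv _ (by omega)
  · push_cast
    have h1 : (q : ℝ) * r j ≤ x * (x : ℝ) ^ A := by
      apply mul_le_mul (by exact_mod_cast hq) (hr j) (Nat.cast_nonneg _) hx0.le
    have h2 : (1 : ℝ) ≤ (x : ℝ) ^ A := Real.one_le_rpow (by linarith) hA.le
    rw [Real.rpow_add hx0, Real.rpow_two]
    have h3 : (1 : ℝ) ≤ x * (x : ℝ) ^ A := by nlinarith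
    have h4 : 2 * (x * (x : ℝ) ^ A) ≤ x * (x * (x : ℝ) ^ A) :=
      mul_le_mul_of_nonneg_right hxr (by positivity)
    nlinarith
  · intro p hp hpz
    exact h p hp (by rw [hz]; exact hpz) j

end aux

/-- Let `ℓ ≥ 2` and `A, θ, δ > 0`. There are `v > 0` and `M`, such that for all `J`, `L`, `x₀`, all `ε > 0` and all
large `R`: for all large `x`, with `y = ⌊x ^ (1 / R)⌋`, `z = ⌊x ^ v⌋`, for ALL distinct positive integers
`r_1, …, r_ℓ ≤ x ^ A` with `w(p) < p` for all primes `p`, ALL intervals `(Z, Z + Y]` with `Y ≥ x ^ θ` and all `T` with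
`T V ≤ x₀`, `V = V r y`:
(1) the set `Rough r y` satisfies `PoissonLaw`: for all disjoint windows `(a j, b j] ⊆ (0, T]`, `j < J`, all `s ≤ T`
outside of them and all `k j ≤ L`, the number of the `n` in `(Z, Z + Y]` with `n + s ∈ Rough r y` and exactly `k j`
elements of `Rough r y` in `(n + a j, n + b j]` for all `j` is `Y V Π` up to `ε Y V`, where `Π` is the product of the
probabilities that a Poisson variable of mean `(b j - a j) V` has the value `k j`; and the same without the condition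
on `n + s`, with `Y` instead of `Y V`;
(2) if `Z + Y + T ≤ x`, the number of the `n` in `(Z, Z + Y]` with `n + s ∈ AlmostRough r M z`, with the same windows,
is `Y W Π` up to `(δ Π + ε) Y W`, `W = V r z`. -/
theorem result (l : ℕ) (hl : 2 ≤ l) (A θ δ : ℝ) (hA : 0 < A) (hθ : 0 < θ) (hδ : 0 < δ) :
    ∃ v : ℝ, 0 < v ∧ ∃ M : ℕ, ∀ (J L : ℕ) (x₀ ε : ℝ), 0 < ε → ∃ R₀ : ℕ, ∀ R : ℕ, R₀ ≤ R → ∀ᶠ x : ℕ in atTop,
      ∀ y z : ℕ, y = ⌊(x : ℝ) ^ (1 / (R : ℝ))⌋₊ → z = ⌊(x : ℝ) ^ v⌋₊ →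
      ∀ r : Fin l → ℕ, Function.Injective r → (∀ j, 1 ≤ r j ∧ (r j : ℝ) ≤ (x : ℝ) ^ A) →
      (∀ p : ℕ, p.Prime → w r p < p) → ∀ Z Y T : ℕ, (x : ℝ) ^ θ ≤ Y → T * V r y ≤ x₀ →
        PoissonLaw (Rough r y) (V r y) J L ε Z Y T ∧
        (Z + Y + T ≤ x →
          CentreLaw (AlmostRough r M z) (Rough r y) (V r z) (V r y) J L δ ε Z Y T) := by
  have bd : ∀ (x : ℕ) (r : Fin l → ℕ), 1 ≤ x → (∀ j, 1 ≤ r j ∧ (r j : ℝ) ≤ (x : ℝ) ^ A) →
      (∀ i, |(((sa r) i : ℤ) : ℝ)| ≤ (x : ℝ) ^ A) ∧ ∀ i : Fin l, |(((sb : Fin l → ℤ) i : ℤ) : ℝ)| ≤ (x : ℝ) ^ A := by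
    intro x r hx h
    constructor
    · intro i
      unfold sa
      rw [Int.cast_natCast, Nat.abs_cast]
      exact (h i).2
    · intro i
      unfold sb
      rw [Int.cast_one, abs_one]
      exact Real.one_le_rpow (by exact_mod_cast hx) hA.le
  obtain ⟨v, hv, hG⟩ := lawG_ls l hl A θ hA hθ δ hδ
  refine ⟨v, hv, ⌊(A + 2) / v⌋₊, ?_⟩
  intro J L x₀ ε hε
  obtain ⟨R₁, h⟩ := law_ls l hl A θ hA hθ J L x₀ ε hε
  obtain ⟨R₂, h'⟩ := hG J L x₀ ε hε
  refine ⟨max R₁ R₂, fun R hR => ?_⟩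
  filter_upwards [h R ((le_max_left _ _).trans hR), h' R ((le_max_right _ _).trans hR), eventually_ge_atTop 2]
    with x hx hx' hx2
  intro y z hy hz r hinj hr hw Z Y T hY hT
  have hok := ls_ok r hinj (fun j => (hr j).1) hw
  constructor
  · have h4 := hx (sa r) sb hok (bd x r (by omega) hr).1 (bd x r (by omega) hr).2 Z Y hY T
    rw [← hy, V_eq] at h4
    exact h4 hT (Rough r y) (fun m _ => rough_iff r y m)
  · intro hZ
    have h4 := hx' y z hy hz (sa r) sb hok (bd x r (by omega) hr).1 (bd x r (by omega) hr).2 Z Y hY T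
    rw [V_eq, V_eq] at h4
    exact h4 hT (AlmostRough r ⌊(A + 2) / v⌋₊ z) (Rough r y) (fun m _ => rough_iff r y m)
      (fun m hm => (almost_iff r x z m v A hA hx2 hv hz (fun j => (hr j).2) (by omega)).trans (rough_iff r z m))

end Pool.Agent.Results.MP_d018b2_nt.UniformPoisson
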